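import Pool.Agent.Y798.FC.Defs
import Pool.Agent.Y139.ID.Count
import Pool.Agent.Y139.ID.Law

/-! A measure on the classes is determined by the traces: the general part (helper529). -/

set_option autoImplicit false

namespace Pool.Agent.Y529.OG

open Complex Filter Topology MeasureTheory UnitAddTorus Pool.Agent.Y798.FC
open Pool.Agent.Y139.ID (wordFun chiW continuous_span measure_ext_fourier continuous_chiW)

theorem finite_sympW (g : ℕ) : Finite (sympW g) := by
  have h0 : ∀ w : sympW g, ∃ p : Equiv.Perm (Fin g) × (Fin g → ℤˣ), ∀ (x : Fin g → ℤ) (j : Fin g),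
      (w : Auts (Fin g)) x j = p.2 j * x (p.1 j) := fun w => by
    obtain ⟨σ, s, h⟩ := w.2
    exact ⟨(σ, s), h⟩
  choose p hp using h0
  refine Finite.of_injective p fun w w' h => Subtype.ext (LinearEquiv.ext fun x => funext fun j => ?_)
  rw [hp, hp, h]

section J
variable {J : Type} [Fintype J]

theorem mF_act' (w : Auts J) (μ : J → ℤ) (x : UnitAddTorus J) :
    mFourier μ (act w x) = mFourier (w μ) x := by
  classical
  have hz : ∀ (n m : ℤ) (y : UnitAddCircle), (fourier n (m • y) : ℂ) = fourier (n * m) y := by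
    intro n m y
    rw [fourier_apply, fourier_apply, smul_smul]
  have hs : ∀ (s : Finset J) (n : ℤ) (y : J → UnitAddCircle),
      (fourier n (∑ i ∈ s, y i) : ℂ) = ∏ i ∈ s, fourier n (y i) := by
    intro s n y
    induction s using Finset.induction_on with
    | empty => simp [fourier_apply]
    | insert a s ha ih =>
      rw [Finset.sum_insert ha, Finset.prod_insert ha, ← ih]
      simp only [fourier_apply, smul_add, AddCircle.toCircle_add, Circle.coe_mul]
  have hl : ∀ (s : Finset J) (n : J → ℤ) (y : UnitAddCircle),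
      (fourier (∑ i ∈ s, n i) y : ℂ) = ∏ i ∈ s, fourier (n i) y := by
    intro s n y
    induction s using Finset.induction_on with
    | empty => simp
    | insert a s ha ih => rw [Finset.sum_insert ha, Finset.prod_insert ha, fourier_add, ← ih]
  have h1 : ∀ i, w μ i = ∑ j, μ j * w (Pi.single j 1) i := by
    intro i
    have h2 : μ = ∑ j, μ j • (Pi.single j 1 : J → ℤ) := by
      funext k
      rw [Finset.sum_apply, Finset.sum_eq_single k]
      · simp
      · intro j _ hj
        simp [Pi.single_eq_of_ne hj.symm]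
      · simp
    conv_lhs => rw [h2]
    rw [map_sum, Finset.sum_apply]
    refine Finset.sum_congr rfl fun j _ => ?_
    rw [map_smul, Pi.smul_apply, smul_eq_mul]
  have h3 : mFourier (w μ) x = ∏ i, ∏ j, (fourier (μ j * w (Pi.single j 1) i) (x i) : ℂ) := by
    simp only [mFourier, ContinuousMap.coe_mk]
    refine Finset.prod_congr rfl fun i _ => ?_
    rw [h1 i, hl]
  rw [h3, Finset.prod_comm]
  simp only [mFourier, ContinuousMap.coe_mk, act]
  refine Finset.prod_congr rfl fun j _ => ?_
  rw [hs]
  exact Finset.prod_congr rfl fun i _ => hz _ _ _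

theorem continuous_act' (w : Auts J) : Continuous (act w : UnitAddTorus J → UnitAddTorus J) := by
  unfold act
  fun_prop

theorem int_cont {E : Type} [NormedAddCommGroup E] (ν : Measure (UnitAddTorus J)) [IsFiniteMeasure ν]
    {f : UnitAddTorus J → E} (hf : Continuous f) : Integrable f ν :=
  hf.integrable_of_hasCompactSupport (HasCompactSupport.of_compactSpace f)

/-- Invariant functions: a finite measure on the torus is determined on them by the integrals of the
orbit sums. -/
theorem inv_eq (W : Subgroup (Auts J)) [Fintype W] (ν ν' : Measure (UnitAddTorus J))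
    [IsFiniteMeasure ν] [IsFiniteMeasure ν']
    (h : ∀ μ : J → ℤ, ∫ x, ∑ w : W, mFourier ((w : Auts J) μ) x ∂ν =
      ∫ x, ∑ w : W, mFourier ((w : Auts J) μ) x ∂ν')
    (f : UnitAddTorus J → ℂ) (hf : Continuous f) (hinv : ∀ w ∈ W, ∀ x, f (act w x) = f x) :
    ∫ x, f x ∂ν = ∫ x, f x ∂ν' := by
  classical
  have hfin : ∀ (ρ : Measure (UnitAddTorus J)) [IsFiniteMeasure ρ] (w : W),
      IsFiniteMeasure (ρ.map (act (w : Auts J))) := fun ρ _ w => Measure.isFiniteMeasure_map _ _
  have key : ∀ (ρ : Measure (UnitAddTorus J)) [IsFiniteMeasure ρ] (g : UnitAddTorus J → ℂ),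
      Continuous g → ∫ x, g x ∂(∑ w : W, ρ.map (act (w : Auts J))) =
        ∫ x, ∑ w : W, g (act (w : Auts J) x) ∂ρ := by
    intro ρ _ g hg
    rw [integral_finsetSum_measure fun w _ => by
      have := hfin ρ w
      exact int_cont _ hg]
    refine Eq.trans (Finset.sum_congr rfl fun w _ => ?_)
      (integral_finsetSum (f := fun (w : W) x => g (act (w : Auts J) x)) Finset.univ
        fun w _ => int_cont ρ (hg.comp (continuous_act' _))).symm
    rw [integral_map (continuous_act' _).measurable.aemeasurable hg.aestronglyMeasurable]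
  have hfν : IsFiniteMeasure (∑ w : W, ν.map (act (w : Auts J))) := by
    have := hfin ν
    infer_instance
  have hfν' : IsFiniteMeasure (∑ w : W, ν'.map (act (w : Auts J))) := by
    have := hfin ν'
    infer_instance
  have heq : (∑ w : W, ν.map (act (w : Auts J))) = ∑ w : W, ν'.map (act (w : Auts J)) := by
    refine measure_ext_fourier fun μ => ?_
    rw [key ν _ (mFourier μ).continuous, key ν' _ (mFourier μ).continuous]
    simp only [mF_act']
    exact h μ
  have h1 := key ν f hf
  have h2 := key ν' f hf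
  rw [heq, h2] at h1
  have h3 : ∀ x, ∑ w : W, f (act (w : Auts J) x) = (Fintype.card W : ℂ) * f x := by
    intro x
    rw [Finset.sum_congr rfl fun w _ => hinv _ w.2 x, Finset.sum_const, Finset.card_univ,
      nsmul_eq_mul]
  simp only [h3] at h1
  rw [integral_const_mul, integral_const_mul] at h1
  have hc : (Fintype.card W : ℂ) ≠ 0 := Nat.cast_ne_zero.2 Fintype.card_ne_zero
  exact (mul_left_cancel₀ hc h1).symm

end J

section

variable {N : ℕ} {I : Type} [Fintype I] {r : I → ℕ}
  {emb : ∀ i, UnitAddTorus (Fin (r i)) → UnitAddTorus (Fin N)}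
  {ret : ∀ i, UnitAddTorus (Fin N) → UnitAddTorus (Fin (r i))}

theorem decomp (cemb : ∀ i, Continuous (emb i)) (cret : ∀ i, Continuous (ret i))
    (ret_emb : ∀ i x, ret i (emb i x) = x)
    (hdis : ∀ i j, i ≠ j → ∀ x y, emb i x ≠ emb j y)
    (ν : Measure (UnitAddTorus (Fin N))) [IsProbabilityMeasure ν]
    (h0 : ν (⋃ i, Set.range (emb i))ᶜ = 0) (g : UnitAddTorus (Fin N) → ℂ) (hg : Continuous g) :
    ∫ x, g x ∂ν = ∑ i, ∫ y, g (emb i y) ∂((ν.restrict (Set.range (emb i))).map (ret i)) := by
  have hcl : ∀ i, MeasurableSet (Set.range (emb i)) := fun i =>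
    (isCompact_range (cemb i)).isClosed.measurableSet
  have hpd : Pairwise (Function.onFun Disjoint fun i => Set.range (emb i)) := by
    intro i j hij
    refine Set.disjoint_left.2 ?_
    rintro z ⟨x, rfl⟩ ⟨y, hy⟩
    exact hdis i j hij x y hy.symm
  have hae : ∀ᵐ x ∂ν, x ∈ ⋃ i, Set.range (emb i) := by
    rw [ae_iff]
    exact h0
  have h1 : ∫ x, g x ∂ν = ∫ x in ⋃ i, Set.range (emb i), g x ∂ν := by
    rw [Measure.restrict_eq_self_of_ae_mem hae]
  rw [h1, integral_iUnion_fintype hcl hpd fun i => (int_cont ν hg).integrableOn]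
  refine Finset.sum_congr rfl fun i _ => ?_
  rw [integral_map (f := fun y => g (emb i y)) (cret i).measurable.aemeasurable
    (hg.comp (cemb i)).aestronglyMeasurable]
  refine setIntegral_congr_fun (hcl i) ?_
  rintro z ⟨x, rfl⟩
  change g (emb i x) = g (emb i (ret i (emb i x)))
  rw [ret_emb]

theorem uniq_aux (W : ∀ i, Subgroup (Auts (Fin (r i)))) [∀ i, Fintype (W i)]
    (cemb : ∀ i, Continuous (emb i)) (cret : ∀ i, Continuous (ret i))
    (ret_emb : ∀ i x, ret i (emb i x) = x) (κ : I → ℕ) (hκ : ∀ i, 0 < κ i)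
    (alg : ∀ i (μ : Fin (r i) → ℤ), ∃ G ∈ Submodule.span ℤ (wordFun N),
      (∀ x, G (emb i x) = (κ i : ℂ) * ∑ w : W i, mFourier ((w : Auts (Fin (r i))) μ) x) ∧
      ∀ j, j ≠ i → ∀ x, G (emb j x) = 0)
    (ν ν' : Measure (UnitAddTorus (Fin N))) [IsProbabilityMeasure ν] [IsProbabilityMeasure ν']
    (h0 : ν (⋃ i, Set.range (emb i))ᶜ = 0) (h0' : ν' (⋃ i, Set.range (emb i))ᶜ = 0)
    (hm : ∀ (r : ℕ) (k : Fin r → ℕ), (∀ j, k j ≤ N) → ∫ x, chiW k x ∂ν = ∫ x, chiW k x ∂ν')
    (f : UnitAddTorus (Fin N) → ℝ) (hf : Continuous f)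
    (hinv : ∀ i, ∀ w ∈ W i, ∀ x, f (emb i (act w x)) = f (emb i x)) :
    ∫ x, f x ∂ν = ∫ x, f x ∂ν' := by
  classical
  -- the ranges are disjoint
  have hdis : ∀ i j, i ≠ j → ∀ x y, emb i x ≠ emb j y := by
    intro i j hij x y hxy
    obtain ⟨G, -, h1, h2⟩ := alg i 0
    have h3 := h2 j hij.symm y
    rw [← hxy, h1] at h3
    have h4 : ∑ w : W i, mFourier ((w : Auts (Fin (r i))) 0) x = (Fintype.card (W i) : ℂ) := by
      have h5 : ∀ w : W i, mFourier ((w : Auts (Fin (r i))) 0) x = 1 := by
        intro w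
        rw [map_zero]
        simp [mFourier]
      rw [Finset.sum_congr rfl fun w _ => h5 w, Finset.sum_const, Finset.card_univ, nsmul_eq_mul,
        mul_one]
    rw [h4] at h3
    rcases mul_eq_zero.1 h3 with h | h
    · exact (hκ i).ne' (by exact_mod_cast h)
    · exact Fintype.card_ne_zero (by exact_mod_cast h : Fintype.card (W i) = 0)
  -- integrals of the functions in the span
  have hspan : ∀ G ∈ Submodule.span ℤ (wordFun N), ∫ x, G x ∂ν = ∫ x, G x ∂ν' := by
    intro G hG
    have h1 : ∫ x, G x ∂ν = ∫ x, G x ∂ν' := by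
      induction hG using Submodule.span_induction with
      | mem G hG =>
        obtain ⟨r, k, hk, rfl⟩ := hG
        exact hm r k hk
      | zero => simp
      | add G G' hG hG' ih ih' =>
        have c1 := continuous_span hG
        have c2 := continuous_span hG'
        simp only [Pi.add_apply]
        rw [integral_add (int_cont ν c1) (int_cont ν c2), integral_add (int_cont ν' c1)
          (int_cont ν' c2), ih, ih']
      | smul a G hG ih =>
        simp only [Pi.smul_apply, zsmul_eq_mul]
        rw [integral_const_mul, integral_const_mul, ih]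
    exact h1
  -- orbit sums on one component
  have horb : ∀ i (μ : Fin (r i) → ℤ),
      ∫ y, ∑ w : W i, mFourier ((w : Auts (Fin (r i))) μ) y
        ∂((ν.restrict (Set.range (emb i))).map (ret i)) =
      ∫ y, ∑ w : W i, mFourier ((w : Auts (Fin (r i))) μ) y
        ∂((ν'.restrict (Set.range (emb i))).map (ret i)) := by
    intro i μ
    obtain ⟨G, hG, h1, h2⟩ := alg i μ
    have h3 := hspan G hG
    rw [decomp cemb cret ret_emb hdis ν h0 G (continuous_span hG),
      decomp cemb cret ret_emb hdis ν' h0' G (continuous_span hG),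
      Finset.sum_eq_single i, Finset.sum_eq_single i] at h3
    · simp only [h1] at h3
      rw [integral_const_mul, integral_const_mul] at h3
      exact mul_left_cancel₀ (Nat.cast_ne_zero.2 (hκ i).ne') h3
    · intro j _ hj
      simp only [h2 j hj, integral_zero]
    · intro h; exact absurd (Finset.mem_univ _) h
    · intro j _ hj
      simp only [h2 j hj, integral_zero]
    · intro h; exact absurd (Finset.mem_univ _) h
  have hfc : Continuous fun x => ((f x : ℝ) : ℂ) := by fun_prop
  have hC : ∫ x, ((f x : ℝ) : ℂ) ∂ν = ∫ x, ((f x : ℝ) : ℂ) ∂ν' := by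
    rw [decomp cemb cret ret_emb hdis ν h0 _ hfc, decomp cemb cret ret_emb hdis ν' h0' _ hfc]
    refine Finset.sum_congr rfl fun i _ => ?_
    have f1 : IsFiniteMeasure ((ν.restrict (Set.range (emb i))).map (ret i)) :=
      Measure.isFiniteMeasure_map _ _
    have f2 : IsFiniteMeasure ((ν'.restrict (Set.range (emb i))).map (ret i)) :=
      Measure.isFiniteMeasure_map _ _
    refine inv_eq (W i) _ _ (horb i) _ (hfc.comp (cemb i)) ?_
    intro w hw x
    change ((f (emb i (act w x)) : ℝ) : ℂ) = _
    rw [hinv i w hw x]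
  rw [integral_complex_ofReal, integral_complex_ofReal] at hC
  exact_mod_cast hC

end

end Pool.Agent.Y529.OG
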