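import Pool.Agent.Y798.OG.Part
import Pool.Agent.Y529.OG.UniqA

/-! A measure on the classes is determined by the traces (helper529). -/

set_option autoImplicit false

namespace Pool.Agent.Y529.OG

open Complex Filter Topology MeasureTheory UnitAddTorus Pool.Agent.Y798.FC Pool.Agent.Y798.OG

theorem t_UNIQ : StmUniq := by
  intro N I _ P hA ν ν' hp hp' h0 h0' hm f hf hS
  let _ : ∀ i, Fintype (sympW (P i).r) := fun i =>
    have := finite_sympW (P i).r
    Fintype.ofFinite _
  refine uniq_aux (r := fun i => (P i).r) (emb := fun i => (P i).emb) (ret := fun i => (P i).ret)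
    (fun i => sympW (P i).r) (fun i => (P i).cemb) (fun i => (P i).cret) (fun i => (P i).ret_emb)
    (fun i => (P i).κ) (fun i => (P i).κ_pos) ?_ ν ν' h0 h0' hm f hf ?_
  · intro i μ
    obtain ⟨G, hG, h1, h2⟩ := hA i μ
    refine ⟨G, hG, fun x => ?_, h2⟩
    rw [h1 x]
    unfold orb
    rw [finsum_eq_sum_of_fintype]
  · intro i w hw x
    obtain ⟨σ, hσ⟩ := (P i).equi w hw x
    have h3 : (P i).emb (act w x) = fun j => (P i).emb x (σ j) := funext hσ
    change f ((P i).emb (act w x)) = f ((P i).emb x)
    rw [h3]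
    exact hS σ _

end Pool.Agent.Y529.OG
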